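import Pool.Agent.H27.PB.Defs
import Pool.Agent.H36.WM.Pos

/-! The statement over `Pool.Agent.H27.PB.Defs` from the one over `H36.WM.Defs`. -/

namespace Pool.Agent.H27.PB

open H43.WM H36.WM

section
variable {F V : Type} [Field F] [AddCommGroup V] [Module F V]

/-- The datum of the old form. -/
noncomputable def old (D : Datum V) (h : IsDatum F D) : H43.WM.Datum F V where
  g := h.1.1.mk'
  h := h.1.2.1.mk'
  l := h.1.2.2.1.mk'
  lam := h.1.2.2.2.1.mk'
  res := h.1.2.2.2.2.1.mk'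
  gys := h.1.2.2.2.2.2.mk'
  g_nat := h.2.1
  gh x := (h.2.2.1 x).1
  gl x := (h.2.2.1 x).2.1
  glam x := (h.2.2.1 x).2.2.1
  hl x := by rw [two_smul]; exact (h.2.2.1 x).2.2.2.1
  hlam x := by rw [two_smul]; exact (h.2.2.1 x).2.2.2.2.1
  llam x := (h.2.2.1 x).2.2.2.2.2.1
  gres x := (h.2.2.1 x).2.2.2.2.2.2.1
  hres x := (h.2.2.1 x).2.2.2.2.2.2.2.1
  lres x := (h.2.2.1 x).2.2.2.2.2.2.2.2.1
  ggys x := (h.2.2.1 x).2.2.2.2.2.2.2.2.2.1
  hgys x := (h.2.2.1 x).2.2.2.2.2.2.2.2.2.2.1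
  lgys x := (h.2.2.1 x).2.2.2.2.2.2.2.2.2.2.2.1
  res_res x := (h.2.2.1 x).2.2.2.2.2.2.2.2.2.2.2.2.1
  gys_gys x := (h.2.2.1 x).2.2.2.2.2.2.2.2.2.2.2.2.2
  anti := h.2.2.2

variable {D : Datum V} (h : IsDatum F D)

theorem g_eq (x : V) : (old D h).g x = D.g x := rfl
theorem h_eq (x : V) : (old D h).h x = D.h x := rfl
theorem l_eq (x : V) : (old D h).l x = D.l x := rfl
theorem lam_eq (x : V) : (old D h).lam x = D.lam x := rfl
theorem res_eq (x : V) : (old D h).res x = D.res x := rfl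
theorem gys_eq (x : V) : (old D h).gys x = D.gys x := rfl

theorem l_pow (n : ℕ) (x : V) : ((old D h).l ^ n) x = D.l^[n] x := by
  rw [Module.End.pow_apply]; rfl

theorem mem_E1 {i j : ℤ} {x : ℕ → V} : x ∈ (old D h).E1 i j ↔ x ∈ E1 F D i j := Iff.rfl

theorem d_eq (x : ℕ → V) : (old D h).d x = d D x := rfl

theorem hard (hL : HardLefschetz F D) : (old D h).HardLefschetz := by
  intro i n
  obtain ⟨h1, h2⟩ := hL i n
  refine ⟨fun x hx h0 hz => ?_, fun y hy h0 => ?_⟩
  · apply h1 x hx (fun t => congrFun h0 t)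
    obtain ⟨z, hz, hz'⟩ := hz
    exact ⟨z, hz, fun t => (congrFun hz' t).trans (l_pow h n _)⟩
  · obtain ⟨x, hx, hx0, z, hz, hz'⟩ := h2 y hy (fun t => congrFun h0 t)
    refine ⟨x, hx, funext hx0, z, hz, ?_⟩
    funext t
    rw [hz' t, ← l_pow h]
    rfl

theorem mem_prim {a b : ℕ} {x : V} : x ∈ (old D h).prim a b ↔ x ∈ prim F D a b := Iff.rfl

theorem mem_low' {e : ℕ} {x : V} : x ∈ H36.WM.low (old D h) e ↔ x ∈ low F D e := Iff.rfl

theorem box_eq (a : ℕ) (x : V) : (old D h).box a x = box F D a x := rfl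

theorem tame {E : Submodule F V} {E' : Set V} (hE : ∀ x, x ∈ E ↔ x ∈ E') {a b : ℕ}
    [FiniteDimensional F V] (ht : Tame F D E' a b) : (old D h).Tame E a b := by
  rcases ht with ⟨v, hv⟩ | ht
  · left
    have hle : (old D h).prim a b ⊓ E ≤ Submodule.span F {v} := by
      rintro x ⟨h1, h2⟩
      obtain ⟨c, hc⟩ := hv x ⟨h1, (hE x).1 h2⟩
      exact Submodule.mem_span_singleton.2 ⟨c, hc.symm⟩
    exact (Submodule.finrank_mono hle).trans ((finrank_span_le_card ({v} : Set V)).trans (by simp))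
  · right
    rintro x ⟨h1, h2⟩ h0
    exact ht x ⟨h1, (hE x).1 h2⟩ h0

theorem rosati {e : ℕ} (hr : Rosati F D e) : H36.WM.Rosati (old D h) e := by
  obtain ⟨h1, A, iR, iA, st, rho, r, κ, hfd, ⟨hst, hpos⟩, hact, hrg⟩ := hr
  obtain ⟨a1, a2, a3, a4⟩ := hact
  refine ⟨h1, A, iR,
    { star := st
      star_involutive := fun x => (hst x x).1
      star_mul := fun x y => (hst x y).2.2
      star_add := fun x y => (hst x y).2.1 }, iA, hfd,
    { toFun := fun u =>
        { toFun := fun x => ⟨rho u x, a1 u x x.2⟩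
          map_add' := fun x y => Subtype.ext ((a4 u x x.2).1 y y.2)
          map_smul' := fun c x => Subtype.ext ((a4 u x x.2).2 c) }
      map_one' := by ext x; exact a2 x x.2
      map_mul' := fun u w => by ext x; exact (a3 u w x x.2).2
      map_zero' := by
        ext x
        have := (a3 0 0 x x.2).1
        rw [add_zero] at this
        exact left_eq_add.1 this
      map_add' := fun u w => by ext x; exact (a3 u w x x.2).1 },
    r, κ, hpos, fun x => (hrg x x.2).1, fun a x hx => (hrg x x.2).2 a hx⟩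

/-- The pairing of the old form. -/
noncomputable def oldP {B : V → V → F} (hB : Pairing F D B) : H36.WM.Pairing (old D h) where
  B := LinearMap.mk₂ F B (fun x x' y => (hB.2.1 y).map_add x x')
    (fun c x y => (hB.2.1 y).map_smul c x) (fun x y y' => (hB.1 x).map_add y y')
    (fun c x y => (hB.1 x).map_smul c y)
  l x y := (hB.2.2 x y).1
  lam x y := (hB.2.2 x y).2.1
  res x y := (hB.2.2 x y).2.2.1
  gys x y := (hB.2.2 x y).2.2.2

theorem hodge {E : Submodule F V} {E' : Set V} (hE : ∀ x, x ∈ E ↔ x ∈ E') {a b : ℕ}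
    (hh : HodgeIndex F D E' a b) : H36.WM.HodgeIndex (old D h) E a b := by
  obtain ⟨B, hB, n, m, t, q, h1, h2, h3, h4, h5⟩ := hh
  refine ⟨oldP h hB, n, m, Matrix.of t, Matrix.of q, h1, ?_, h3, ?_, ?_⟩
  · rintro x ⟨hx1, hx2⟩
    obtain ⟨c, hc⟩ := h2 x ⟨hx1, (hE x).1 hx2⟩
    refine Submodule.mem_sup.2 ⟨∑ i, c i • m i, ?_, x - ∑ i, c i • m i, ?_, by abel⟩
    · exact Submodule.sum_mem _ fun i _ => Submodule.smul_mem _ _
        (Submodule.subset_span ⟨i, rfl⟩)
    · exact LinearMap.mem_ker.2 hc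
  · intro i j
    rw [l_pow]
    exact h4 i j
  · intro x hx
    have := h5 x (Function.ne_iff.1 hx)
    rw [dotProduct]
    simp only [Matrix.mulVec, dotProduct, Matrix.of_apply, Finset.mul_sum]
    simpa only [mul_assoc] using this

end

variable {F V : Type} [Field F] [CharZero F] [AddCommGroup V] [Module F V]

theorem main [FiniteDimensional F V] (D : Datum V) (hD : SemistableDatum F D) (psi : V → V)
    (hpsi : Commutes F D psi) (alpha : F)
    (h : ∀ a b : ℕ, 1 ≤ a → Tame F D (Eig psi alpha) a b ∨ Rosati F D (a + b) ∨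
      HodgeIndex F D (Eig psi alpha) a b) :
    WeightMonodromy F D (Eig psi alpha) := by
  obtain ⟨hD, hL⟩ := hD
  set p : Module.End F V := hpsi.1.mk' with hp
  have hE : ∀ x, x ∈ p.maxGenEigenspace alpha ↔ x ∈ Eig psi alpha := by
    intro x
    rw [Module.End.mem_maxGenEigenspace]
    refine exists_congr fun k => ?_
    rw [Module.End.pow_apply]
    have : (⇑(p - alpha • (1 : Module.End F V)) : V → V) = fun y => psi y - alpha • y := by
      funext y; rfl
    rw [this]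
  have hc : H43.WM.Commutes (old D hD) p :=
    { g := fun x => (hpsi.2 x).1
      h := fun x => (hpsi.2 x).2.1
      l := fun x => (hpsi.2 x).2.2.1
      lam := fun x => (hpsi.2 x).2.2.2.1
      res := fun x => (hpsi.2 x).2.2.2.2.1
      gys := fun x => (hpsi.2 x).2.2.2.2.2 }
  have key : (old D hD).WeightMonodromy (p.maxGenEigenspace alpha) := by
    refine weight_monodromy (old D hD) p hc alpha (hard hD hL) fun a b ha => ?_
    rcases h a b ha with h1 | h1 | h1
    · exact tame hD hE h1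
    · exact Or.inr fun x hx h0 => ss_of_rosati ha (rosati hD h1) x hx.1 h0
    · exact Or.inr fun x hx h0 => ss_of_hodge ha (hodge hD hE h1) x hx h0
  intro i j
  obtain ⟨k1, k2⟩ := key i j
  refine ⟨fun x hx hxE hz => ?_, fun y hy hyE => ?_⟩
  · obtain ⟨z, hz, hz'⟩ := hz
    obtain ⟨z, hz1, hz2, hz3⟩ := k1 x hx (fun t => (hE _).2 (hxE t).1)
      (funext fun t => (hxE t).2) ⟨z, hz, funext hz'⟩
    exact ⟨z, hz1, fun t => ⟨(hE _).1 (hz2 t), congrFun hz3 t⟩⟩
  · obtain ⟨x, hx1, hx2, hx3, z, hz1, hz2, hz3⟩ := k2 y hy (fun t => (hE _).2 (hyE t).1)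
      (funext fun t => (hyE t).2)
    exact ⟨x, hx1, fun t => ⟨(hE _).1 (hx2 t), congrFun hx3 t⟩, z, hz1,
      fun t => ⟨(hE _).1 (hz2 t), congrFun hz3 t⟩⟩

end Pool.Agent.H27.PB
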