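import Mathlib

/-!
The linear algebra of the weight spectral sequence of a strictly semistable projective scheme
(Rapoport-Zink, Mokrane) and the positivity conditions on the strata of its special fibre: the Rosati
involution and the Hodge index theorem (MP_d037d4_ag); definitions.
-/

namespace Pool.Agent.H27.PB

/-- The operators on `V = ⊕ H^*(Z^{(a+1)})`, the sum over `a ≥ 0` of the cohomology of the
disjoint unions `Z^{(a+1)}` of the `(a+1)`-fold intersections of components of a semistable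
special fibre of dimension `δ`:
* `g` is multiplication by `a` on `H^*(Z^{(a+1)})`;
* `h` is multiplication by `c - (δ - a)` on `H^c(Z^{(a+1)})`;
* `l` is the Lefschetz operator of an ample class, `(h, l, lam)` its sl2-triple;
* `res` is the alternating sum of the restrictions `H^c(Z^{(a+1)}) → H^c(Z^{(a+2)})`;
* `gys` is the alternating sum of the Gysin maps `H^c(Z^{(a+1)}) → H^{c+2}(Z^{(a)})`. -/
structure Datum (V : Type) where
  g : V → V
  h : V → V
  l : V → V
  lam : V → V
  res : V → V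
  gys : V → V

variable {V : Type} [AddCommGroup V]

/-- The differential `d_1`, sum of the restriction and the Gysin maps. -/
def d (D : Datum V) (x : ℕ → V) (t : ℕ) : V := D.res (x t) + D.gys (x (t + 1))

/-- The commutator `[lam, s] = lam s - s lam`. -/
def dp (D : Datum V) (s : V → V) (x : V) : V := D.lam (s x) - s (D.lam x)

section
variable (F : Type) [Field F] [Module F V] (D : Datum V)

/-- The operators of `D` are linear and satisfy the relations. -/
def IsDatum : Prop :=
  (IsLinearMap F D.g ∧ IsLinearMap F D.h ∧ IsLinearMap F D.l ∧ IsLinearMap F D.lam ∧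
    IsLinearMap F D.res ∧ IsLinearMap F D.gys) ∧
  (∀ (c : F) (x : V), D.g x = c • x → x ≠ 0 → ∃ a : ℕ, c = a) ∧
  (∀ x, D.g (D.h x) = D.h (D.g x) ∧ D.g (D.l x) = D.l (D.g x) ∧
    D.g (D.lam x) = D.lam (D.g x) ∧
    D.h (D.l x) = D.l (D.h x) + (D.l x + D.l x) ∧
    D.h (D.lam x) = D.lam (D.h x) - (D.lam x + D.lam x) ∧
    D.l (D.lam x) = D.lam (D.l x) + D.h x ∧
    D.g (D.res x) = D.res (D.g x) + D.res x ∧
    D.h (D.res x) = D.res (D.h x) + D.res x ∧
    D.l (D.res x) = D.res (D.l x) ∧
    D.g (D.gys x) = D.gys (D.g x) - D.gys x ∧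
    D.h (D.gys x) = D.gys (D.h x) + D.gys x ∧
    D.l (D.gys x) = D.gys (D.l x) ∧
    D.res (D.res x) = 0 ∧ D.gys (D.gys x) = 0) ∧
  ∀ (a : ℕ) (x : V), D.g x = ((a : F) + 1) • x → D.res (D.gys x) + D.gys (D.res x) = 0

/-- The `E_1`-term in degree `i` and Lefschetz weight `j`: families `(x_t)`, `t ≥ max(0,-i)`, with
`x_t` in `H^*(Z^{(i+2t+1)})` of `h`-weight `j`. It contributes to the graded piece of weight
`n - i` of `H^n(Y)`, `n = dim Y + j`. -/
def E1 (i j : ℤ) : Set (ℕ → V) :=
  {x | ∀ t : ℕ, D.g (x t) = ((i + 2 * t : ℤ) : F) • x t ∧ D.h (x t) = (j : F) • x t ∧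
    (i + t < 0 → x t = 0)}

/-- Hard Lefschetz for the generic fibre `Y`: `l^n` is a bijection from the cohomology of the
`E_1`-complex in weight `-n` to that in weight `n`, in every degree `i`. -/
def HardLefschetz : Prop :=
  ∀ (i : ℤ) (n : ℕ),
    (∀ x ∈ E1 F D i (-n), (∀ t, d D x t = 0) →
      (∃ z ∈ E1 F D (i - 1) (n - 1), ∀ t, d D z t = D.l^[n] (x t)) →
        ∃ z ∈ E1 F D (i - 1) (-n - 1), d D z = x) ∧
    ∀ y ∈ E1 F D i n, (∀ t, d D y t = 0) →
      ∃ x ∈ E1 F D i (-n), (∀ t, d D x t = 0) ∧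
        ∃ z ∈ E1 F D (i - 1) (n - 1), ∀ t, y t = D.l^[n] (x t) + d D z t

/-- The weight data of a semistable projective scheme: the operators of a datum, with hard
Lefschetz for the generic fibre, on the `E_2`-page. -/
def SemistableDatum : Prop := IsDatum F D ∧ HardLefschetz F D

/-- The weight-monodromy property of the part in `E`: for every `i ≥ 0` the `i`-th power of the
monodromy operator `N : (x_t) ↦ (x_{t+1})` is a bijection from the cohomology of the
`E_1`-complex in degree `-i` (graded pieces of weight `n + i`) to that in degree `i` (weight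
`n - i`), for classes with components in `E`. -/
def WeightMonodromy (E : Set V) : Prop :=
  ∀ (i : ℕ) (j : ℤ),
    (∀ x ∈ E1 F D (-i) j, (∀ t, x t ∈ E ∧ d D x t = 0) →
      (∃ z ∈ E1 F D (i - 1) (j - 1), ∀ t, d D z t = x (t + i)) →
        ∃ z ∈ E1 F D (-i - 1) (j - 1), ∀ t, z t ∈ E ∧ d D z t = x t) ∧
    ∀ y ∈ E1 F D i j, (∀ t, y t ∈ E ∧ d D y t = 0) →
      ∃ x ∈ E1 F D (-i) j, (∀ t, x t ∈ E ∧ d D x t = 0) ∧
        ∃ z ∈ E1 F D (i - 1) (j - 1), ∀ t, z t ∈ E ∧ y t = x (t + i) + d D z t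

/-- `psi` is linear and commutes with all the operators, such as the Frobenius
`q^(-⌊c/2⌋) φ^f` on `H^c(Z^{(a+1)})`. -/
def Commutes (psi : V → V) : Prop :=
  IsLinearMap F psi ∧ ∀ x, psi (D.g x) = D.g (psi x) ∧ psi (D.h x) = D.h (psi x) ∧
    psi (D.l x) = D.l (psi x) ∧ psi (D.lam x) = D.lam (psi x) ∧
    psi (D.res x) = D.res (psi x) ∧ psi (D.gys x) = D.gys (psi x)

/-- Primitive cohomology `P^{δ-a-b}(Z^{(a+1)})`: lowest weight vectors of `h`-weight `-b`. -/
def prim (a b : ℕ) : Set V := {x | D.g x = (a : F) • x ∧ D.h x = -(b : F) • x ∧ D.lam x = 0}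

/-- The lowest weight part of `⊕_a H^{δ-e}(Z^{(a+1)})`: the vectors with `g - h = e` killed by
`lam`. -/
def low (e : ℕ) : Set V := {x | D.g x - D.h x = (e : F) • x ∧ D.lam x = 0}

/-- The harmonic operator `gys [lam,res] - [lam,gys] res - a (res [lam,gys] + [lam,gys] res)` on
`H^*(Z^{(a+1)})`. -/
def box (a : ℕ) (x : V) : V :=
  D.gys (dp D D.res x) - dp D D.gys (D.res x) -
    (a : F) • (D.res (dp D D.gys x) + dp D D.gys (D.res x))

/-- The condition on the part in `E` of the primitive cohomology `prim a b`: either it has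
dimension at most one, or `box` is semisimple at the eigenvalue `0` on it. -/
def Tame (E : Set V) (a b : ℕ) : Prop :=
  (∃ v, ∀ x ∈ prim F D a b ∩ E, ∃ c : F, x = c • v) ∨
    ∀ x ∈ prim F D a b ∩ E, box F D a (box F D a x) = 0 → box F D a x = 0

/-- `st` is an involution of the ring `A`, and `x* x = 0` only for `x = 0`. -/
def PositiveInvolution {A : Type} [Ring A] (st : A → A) : Prop :=
  (∀ x y, st (st x) = x ∧ st (x + y) = st x + st y ∧ st (x * y) = st y * st x) ∧
    ∀ x, st x * x = 0 → x = 0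

/-- The ring `A` acts on the subspace `S` through `rho`, by `F`-linear maps. -/
def Acts {A : Type} [Ring A] (S : Set V) (rho : A → V → V) : Prop :=
  (∀ u, ∀ x ∈ S, rho u x ∈ S) ∧ (∀ x ∈ S, rho 1 x = x) ∧
    (∀ u w, ∀ x ∈ S, rho (u + w) x = rho u x + rho w x ∧ rho (u * w) x = rho u (rho w x)) ∧
    ∀ u, ∀ x ∈ S, (∀ y ∈ S, rho u (x + y) = rho u x + rho u y) ∧
      ∀ c : F, rho u (c • x) = c • rho u x

/-- On `low e` the map `res` belongs to a finite-dimensional `ℚ`-algebra `A` with an involution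
such that `x* x = 0` only for `x = 0`, and `lam ∘ gys` is an integral multiple `κ a` of `res*` on
`H^{δ-e}(Z^{(a+2)})`. -/
def Rosati (e : ℕ) : Prop :=
  (∀ x ∈ low F D e, D.lam (D.res x) = 0) ∧
  ∃ (A : Type) (_ : Ring A) (_ : Algebra ℚ A) (st : A → A) (rho : A → V → V) (r : A) (κ : ℕ → ℤ),
    FiniteDimensional ℚ A ∧ PositiveInvolution st ∧ Acts F (low F D e) rho ∧
    ∀ x ∈ low F D e, rho r x = D.res x ∧
      ∀ a : ℕ, D.g x = ((a : F) + 1) • x → D.lam (D.gys x) = (κ a : F) • rho (st r) x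

/-- Poincaré duality on the strata: a bilinear form for which `l` and `lam` are self-adjoint and
`res`, `gys` adjoint to each other. -/
def Pairing (B : V → V → F) : Prop :=
  (∀ x, IsLinearMap F (B x)) ∧ (∀ y, IsLinearMap F fun x => B x y) ∧
    ∀ x y, B (D.l x) y = B x (D.l y) ∧ B (D.lam x) y = B x (D.lam y) ∧
      B (D.res x) y = B x (D.gys y) ∧ B (D.gys x) y = B x (D.res y)

/-- The part in `E` of the primitive cohomology `prim a b` is spanned, up to the kernel of `box`,
by finitely many classes `m i`, the operator `box` acts on them by a rational matrix, and their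
intersection matrix `B (m i) (l^b m j)` is rational and anisotropic (for instance definite). -/
def HodgeIndex (E : Set V) (a b : ℕ) : Prop :=
  ∃ B, Pairing F D B ∧ ∃ (n : ℕ) (m : Fin n → V) (t q : Fin n → Fin n → ℚ),
    (∀ i, m i ∈ prim F D a b) ∧
    (∀ x ∈ prim F D a b ∩ E, ∃ c : Fin n → F, box F D a (x - ∑ i, c i • m i) = 0) ∧
    (∀ i, box F D a (m i) = ∑ j, (t i j : F) • m j) ∧
    (∀ i j, B (m i) (D.l^[b] (m j)) = (q i j : F)) ∧
    ∀ x : Fin n → ℚ, (∃ i, x i ≠ 0) → ∑ i, ∑ j, x i * q i j * x j ≠ 0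

end

/-- The generalised `alpha`-eigenspace of `psi`. -/
def Eig {F : Type} [Field F] [Module F V] (psi : V → V) (alpha : F) : Set V :=
  {x | ∃ k : ℕ, (fun y => psi y - alpha • y)^[k] x = 0}

end Pool.Agent.H27.PB
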